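import Pool.Agent.Run7.h515.PV.Main

set_option autoImplicit false

/-!
The block rule makes at most `2 * 5 ^ m - 2` moves if there are `m` blocks: counting.
-/

namespace Pool.Agent.Run7.h515.PV

open Finset

variable {n : ℕ}

/-- The cell of `u` in block `k`. -/
def code (k : ℕ) (u : Fin n → Bool) : Fin n → Bool := fun i => if block i = k then u i else false

open Classical in
/-- The cells with an even number of ones in block `k`. -/
noncomputable def evens (n k : ℕ) : Finset (Fin n → Bool) :=
  univ.filter fun c => (∀ i, block i ≠ k → c i = false) ∧ ¬ OddIn c k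

open Classical in
/-- The even cells which are not dead. -/
noncomputable def alive (k : ℕ) (D : Set (Fin n → Bool)) (v : Fin n → Bool) :
    Finset (Fin n → Bool) :=
  (evens n k).filter fun c => ∃ x : Fin n → Bool, x ∉ D ∧ (∀ i, block i = k → x i = c i) ∧
    ∀ j, j ∉ (low (k + 1) : Finset (Fin n)) → x j = v j

theorem code_mem_evens {k : ℕ} {u : Fin n → Bool} (h : ¬ OddIn u k) : code k u ∈ evens n k := by
  simp only [evens, mem_filter, mem_univ, true_and]
  refine ⟨fun i hi => by simp [code, hi], ?_⟩
  rw [oddIn_congr (y := u) (fun i hi => by simp [code, hi])]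
  exact h

theorem card_evens (n k : ℕ) : (evens n k).card ≤ 4 := by
  classical
  let g : (Fin n → Bool) → Bool × Bool := fun c =>
    (if h : 3 * k < n then c ⟨3 * k, h⟩ else false,
      if h : 3 * k + 1 < n then c ⟨3 * k + 1, h⟩ else false)
  have hinj : Set.InjOn g (evens n k : Set (Fin n → Bool)) := by
    intro c hc c' hc' hg
    simp only [evens, coe_filter, mem_univ, true_and, Set.mem_ofPred_eq] at hc hc'
    by_contra hne
    have hdiff : ∀ i : Fin n, c i ≠ c' i → (i : ℕ) = 3 * k + 2 := by
      intro i hi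
      have hb : block i = k := by
        by_contra hb
        exact hi (by rw [hc.1 i hb, hc'.1 i hb])
      unfold block at hb
      have h3 : (i : ℕ) = 3 * k ∨ (i : ℕ) = 3 * k + 1 ∨ (i : ℕ) = 3 * k + 2 := by omega
      rcases h3 with h3 | h3 | h3
      · exfalso
        apply hi
        have h4 : 3 * k < n := h3 ▸ i.2
        have h5 := congrArg Prod.fst hg
        simp only [g, h4, dif_pos] at h5
        have h6 : i = ⟨3 * k, h4⟩ := Fin.ext h3
        rw [h6]; exact h5
      · exfalso
        apply hi
        have h4 : 3 * k + 1 < n := h3 ▸ i.2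
        have h5 := congrArg Prod.snd hg
        simp only [g, h4, dif_pos] at h5
        have h6 : i = ⟨3 * k + 1, h4⟩ := Fin.ext h3
        rw [h6]; exact h5
      · exact h3
    obtain ⟨i, hi⟩ := Function.ne_iff.1 hne
    have hi3 := hdiff i hi
    have hflip : c' = flip c i := by
      funext j
      by_cases hj : j = i
      · subst hj
        rw [flip_same]
        cases h1 : c j <;> cases h2 : c' j <;> simp_all
      · rw [flip_ne _ hj]
        by_contra h
        have := hdiff j (fun h' => h h'.symm)
        exact hj (Fin.ext (by rw [this, hi3]))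
    have hbi : block i = k := by unfold block; omega
    have := hc'.2
    rw [hflip, oddIn_flip hbi] at this
    exact this hc.2
  calc (evens n k).card ≤ (univ : Finset (Bool × Bool)).card :=
        card_le_card_of_injOn g (fun c _ => mem_univ _) hinj
    _ = 4 := by simp

theorem alive_subset {k : ℕ} {D D' : Set (Fin n → Bool)} {u v v' : Fin n → Bool} (hD : D ⊆ D')
    (hv : ∀ j, j ∉ (low (k + 1) : Finset (Fin n)) → v' j = v j)
    (hu : ∀ j, j ∉ (low (k + 1) : Finset (Fin n)) → u j = v j)
    (hcell : ∀ x : Fin n → Bool, (∀ j, j ∉ (low k : Finset (Fin n)) → x j = u j) → x ∈ D') :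
    alive k D' v' ⊆ (alive k D v).erase (code k u) := by
  classical
  intro c hc
  rw [alive, mem_filter] at hc
  obtain ⟨hc1, x, hx1, hx2, hx3⟩ := hc
  rw [mem_erase, alive, mem_filter]
  refine ⟨?_, hc1, x, fun h => hx1 (hD h), hx2, fun j hj => by rw [hx3 j hj, hv j hj]⟩
  rintro rfl
  refine hx1 (hcell x fun j hj => ?_)
  by_cases hjk : block j = k
  · rw [hx2 j hjk]; simp [code, hjk]
  · have hj' : j ∉ (low (k + 1) : Finset (Fin n)) := by
      rw [mem_low] at hj ⊢
      omega
    rw [hx3 j hj', hv j hj', hu j hj']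

theorem odd_bound {k t : ℕ} (hB : ∀ (D : Set (Fin n → Bool)) (v : Fin n → Bool), Lim k t D v)
    (p : ℕ) (D : Set (Fin n → Bool)) (v : Fin n → Bool) (hpar : OddIn v k)
    (hp : (alive k D v).card ≤ p) : Lim (k + 1) (p * (t + 2) + t) D v := by
  classical
  have hrel : ∀ (v : Fin n → Bool) (D : Set (Fin n → Bool)), Rel k v ∅ D := fun v D x _ hx =>
    absurd hx (Set.notMem_empty x)
  have hsat : Sat k (∅ : Set (Fin n → Bool)) := fun x _ _ hx => absurd hx (Set.notMem_empty x)
  induction p generalizing D v with
  | zero =>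
    rw [zero_mul, zero_add]
    refine run_last t hpar (hB ∅ v) (hrel v D) fun x hx hout => ?_
    by_contra hxD
    have : code k x ∈ alive k D v := by
      rw [alive, mem_filter]
      exact ⟨code_mem_evens hx, x, hxD, fun i hi => by simp [code, hi], hout⟩
    have h0 : 0 < (alive k D v).card := card_pos.2 ⟨_, this⟩
    omega
  | succ p ih =>
    have h1 : (p + 1) * (t + 2) + t = t + 2 + (p * (t + 2) + t) := by ring
    rw [h1]
    refine run_odd t hpar (hB ∅ v) hsat (hrel v D) (fun l _ => hrel _ D) ?_
    intro D' u hD' hu hpu hout D'' v' hD'' hcell hodd hout'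
    refine ih D'' v' hodd ?_
    have hsub := alive_subset (k := k) (D := D) (D' := D'') (hD'.trans hD'') hout' hout hcell
    have hmem : code k u ∈ alive k D v := by
      rw [alive, mem_filter]
      exact ⟨code_mem_evens hpu, u, fun h => hu (hD' h), fun i hi => by simp [code, hi], hout⟩
    have h2 := card_le_card hsub
    rw [card_erase_of_mem hmem] at h2
    omega

theorem step {k t : ℕ} (hB : ∀ (D : Set (Fin n → Bool)) (v : Fin n → Bool), Lim k t D v)
    (D : Set (Fin n → Bool)) (v : Fin n → Bool) : Lim (k + 1) (5 * t + 8) D v := by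
  classical
  by_cases hpar : OddIn v k
  · have h1 : 5 * t + 8 = 4 * (t + 2) + t := by ring
    rw [h1]
    refine odd_bound hB 4 D v hpar (le_trans (card_le_card ?_) (card_evens n k))
    exact filter_subset _ _
  · refine Lim.mono (run_even (N := 3 * (t + 2) + t) t hpar (hB ∅ v)
      (fun x _ _ hx => absurd hx (Set.notMem_empty x))
      (fun x _ hx => absurd hx (Set.notMem_empty x)) ?_) (by omega)
    intro D' v' hD' hcell hodd hout
    refine odd_bound hB 3 D' v' hodd ?_
    have h2 : alive k D' v' ⊆ (evens n k).erase (code k v) := by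
      refine (alive_subset (k := k) (D := D) (u := v) (v := v) hD' hout (fun _ _ => rfl)
        hcell).trans ?_
      exact erase_subset_erase _ (filter_subset _ _)
    have h3 := card_le_card h2
    rw [card_erase_of_mem (code_mem_evens hpar)] at h3
    have := card_evens n k
    omega

theorem bound (k : ℕ) (D : Set (Fin n → Bool)) (v : Fin n → Bool) :
    Lim k (2 * 5 ^ k - 2) D v := by
  induction k generalizing D v with
  | zero =>
    intro o ho _
    rw [← subset_empty]
    intro i hi
    have := mem_low.1 (ho hi)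
    omega
  | succ k ih =>
    refine (step ih D v).mono ?_
    have : 1 ≤ 5 ^ k := Nat.one_le_pow _ _ (by norm_num)
    rw [pow_succ]
    omega

/-- The vertices in `kill v (improving f v)` are at most as good as `v`. -/
theorem le_of_kill {α : Type*} [LinearOrder α] {f : (Fin n → Bool) → α}
    (hinj : Function.Injective f)
    (hf : ∀ (U : Finset (Fin n)) (x : Fin n → Bool), ∃! y : Fin n → Bool,
      (∀ i, i ∉ U → y i = x i) ∧ ∀ i ∈ U, f (flip y i) < f y)
    (v x : Fin n → Bool) (hx : x ∈ kill v (improving f v)) : f x ≤ f v := by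
  classical
  set U : Finset (Fin n) := univ \ improving f v with hU
  have hUv : ∀ i, i ∉ U → i ∈ improving f v := by
    intro i hi
    rw [hU, mem_sdiff] at hi
    push Not at hi
    exact hi (mem_univ i)
  let F : Finset (Fin n → Bool) := univ.filter fun y => ∀ i, i ∉ U → y i = v i
  have hvF : v ∈ F := by simp [F]
  obtain ⟨y, hyF, hy⟩ := exists_max_image F f ⟨v, hvF⟩
  have hflipne : ∀ (z : Fin n → Bool) (i : Fin n), f (flip z i) ≠ f z := by
    intro z i h
    have := congrFun (hinj h) i
    rw [flip_same] at this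
    simp at this
  have hyF' : ∀ i, i ∉ U → y i = v i := by simpa [F] using hyF
  have h1 : (∀ i, i ∉ U → y i = v i) ∧ ∀ i ∈ U, f (flip y i) < f y := by
    refine ⟨hyF', fun i hi => lt_of_le_of_ne (hy _ ?_) (hflipne y i)⟩
    simp only [F, mem_filter, mem_univ, true_and]
    intro j hj
    rw [flip_ne _ (fun h : j = i => hj (by rw [h]; exact hi))]
    exact hyF' j hj
  have h2 : (∀ i, i ∉ U → v i = v i) ∧ ∀ i ∈ U, f (flip v i) < f v := by
    refine ⟨fun _ _ => rfl, fun i hi => lt_of_le_of_ne (not_lt.1 fun h => ?_) (hflipne v i)⟩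
    rw [hU, mem_sdiff] at hi
    exact hi.2 (by simp [improving, h])
  have h3 : y = v := (hf U v).unique h1 h2
  rw [← h3]
  refine hy x ?_
  simp only [F, mem_filter, mem_univ, true_and]
  intro i hi
  exact hx i (hUv i hi)

theorem path_le {α : Type*} [LinearOrder α] {f : (Fin n → Bool) → α}
    (hinj : Function.Injective f)
    (hf : ∀ (U : Finset (Fin n)) (x : Fin n → Bool), ∃! y : Fin n → Bool,
      (∀ i, i ∉ U → y i = x i) ∧ ∀ i ∈ U, f (flip y i) < f y)
    {k : ℕ} (hk : (low k : Finset (Fin n)) = univ) (m : ℕ) (D : Set (Fin n → Bool)) (L : ℕ)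
    (w : ℕ → (Fin n → Bool))
    (hw : ∀ t < L, ∃ i, BlockRule (w t) (improving f (w t)) i ∧ w (t + 1) = flip (w t) i)
    (hD : ∀ x ∈ D, f x < f (w 0)) (h : Lim k m D (w 0)) : L ≤ m := by
  have hlegal : ∀ (D : Set (Fin n → Bool)) (v : Fin n → Bool), (∀ x ∈ D, f x < f v) →
      ∀ i ∈ improving f v, flip v i ∉ D := by
    intro D v hD i hi hd
    have h1 := hD _ hd
    have h2 : f v < f (flip v i) := by simpa [improving] using hi
    exact lt_asymm h1 h2
  induction m generalizing D L w with
  | zero =>
    by_contra hL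
    obtain ⟨i, hi, _⟩ := hw 0 (by omega)
    have h0 := h (improving f (w 0)) (by rw [hk]; exact subset_univ _) (hlegal D (w 0) hD)
    rw [h0] at hi
    exact absurd hi.1 (by simp)
  | succ m ih =>
    cases L with
    | zero => omega
    | succ L =>
      obtain ⟨i, hi, hi'⟩ := hw 0 (by omega)
      have h1 := h (improving f (w 0)) (by rw [hk]; exact subset_univ _) (hlegal D (w 0) hD) i hi
      rw [← hi'] at h1
      have h2 : f (w 0) < f (w 1) := by
        have := hi.1
        rw [hi']
        simpa [improving] using this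
      have h3 := ih (D ∪ kill (w 0) (improving f (w 0))) L (fun t => w (t + 1))
        (fun t ht => hw (t + 1) (by omega)) ?_ h1
      · omega
      · rintro x (hx | hx)
        · exact (hD x hx).trans h2
        · exact lt_of_le_of_lt (le_of_kill hinj hf (w 0) x hx) h2

theorem exists_blockRule (x : Fin n → Bool) (S : Finset (Fin n)) (hS : S.Nonempty) :
    ∃ i, BlockRule x S i := by
  classical
  by_cases h : (S.filter fun i => OddIn x (block i)).Nonempty
  · obtain ⟨i, hi, hmax⟩ := exists_max_image (S.filter fun i => OddIn x (block i)) block h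
    rw [mem_filter] at hi
    exact ⟨i, hi.1, Or.inl ⟨hi.2, fun j hj hj' => hmax j (mem_filter.2 ⟨hj, hj'⟩)⟩⟩
  · obtain ⟨i, hi, hmin⟩ := exists_min_image S block hS
    refine ⟨i, hi, Or.inr ⟨fun j hj hj' => h ⟨j, mem_filter.2 ⟨hj, hj'⟩⟩, hmin⟩⟩

/-- Main theorem of this file. -/
theorem main (n : ℕ) {α : Type*} [LinearOrder α] {f : (Fin n → Bool) → α}
    (hinj : Function.Injective f)
    (hf : ∀ (U : Finset (Fin n)) (x : Fin n → Bool), ∃! y : Fin n → Bool,
      (∀ i, i ∉ U → y i = x i) ∧ ∀ i ∈ U, f (flip y i) < f y)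
    (L : ℕ) (w : ℕ → (Fin n → Bool))
    (hw : ∀ t < L, ∃ i, BlockRule (w t) (improving f (w t)) i ∧ w (t + 1) = flip (w t) i) :
    L + 2 ≤ 2 * 5 ^ ((n + 2) / 3) := by
  have hk : (low ((n + 2) / 3) : Finset (Fin n)) = univ := by
    ext i
    simp only [mem_low, mem_univ, iff_true]
    unfold block
    have := i.2
    omega
  have h := path_le hinj hf hk _ ∅ L w hw (fun x hx => absurd hx (Set.notMem_empty x))
    (bound ((n + 2) / 3) ∅ (w 0))
  have : 1 ≤ 5 ^ ((n + 2) / 3) := Nat.one_le_pow _ _ (by norm_num)
  omega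

end Pool.Agent.Run7.h515.PV
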