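import Mathlib

set_option autoImplicit false

/-!
Pivot rules on abstract cubes with blocks of directions: definitions.
-/

namespace Pool.Agent.Run7.h515.PV

open Finset

variable {n : ℕ}

/-- The neighbour of the vertex `x` of the `n`-cube in direction `i`. -/
def flip (x : Fin n → Bool) (i : Fin n) : Fin n → Bool := Function.update x i (!(x i))

/-- The improving directions of the vertex `x`. -/
def improving {α : Type*} [LinearOrder α] (f : (Fin n → Bool) → α) (x : Fin n → Bool) :
    Finset (Fin n) := univ.filter fun i => f x < f (flip x i)

/-- The block of the direction `i`: the directions are divided into the blocks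
`{0, 1, 2}`, `{3, 4, 5}`, ... (the last one may be smaller). -/
def block (i : Fin n) : ℕ := (i : ℕ) / 3

/-- The vertex `x` is odd in block `k`: an odd number of its coordinates in block `k` is one. -/
def OddIn (x : Fin n → Bool) (k : ℕ) : Prop :=
  Odd (univ.filter fun i => block i = k ∧ x i = true).card

/-- **The block rule.** `BlockRule x S i` says that the direction `i` is an admissible choice at
the vertex `x` with the set `S` of improving directions: if some block in which `x` is odd contains
an improving direction, then `i` is an improving direction in the highest such block; otherwise
`i` is an improving direction in the lowest block which contains one. -/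
def BlockRule (x : Fin n → Bool) (S : Finset (Fin n)) (i : Fin n) : Prop :=
  i ∈ S ∧
    ((OddIn x (block i) ∧ ∀ j ∈ S, OddIn x (block j) → block j ≤ block i) ∨
      ((∀ j ∈ S, ¬ OddIn x (block j)) ∧ ∀ j ∈ S, block i ≤ block j))

end Pool.Agent.Run7.h515.PV
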