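import Pool.Agent.Run7.h515.PV.Defs

set_option autoImplicit false

/-!
The block rule makes at most `2 * 5 ^ m - 2` moves if there are `m` blocks.
-/

namespace Pool.Agent.Run7.h515.PV

open Finset

variable {n : ℕ}

theorem flip_same (x : Fin n → Bool) (i : Fin n) : flip x i i = !(x i) := by
  simp [flip]

theorem flip_ne (x : Fin n → Bool) {i j : Fin n} (h : j ≠ i) : flip x i j = x j := by
  simp [flip, h]

/-- The vertices which are known to be at most as good as `v`, if `o` is its set of improving
directions. -/
def kill (v : Fin n → Bool) (o : Finset (Fin n)) : Set (Fin n → Bool) :=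
  {x | ∀ i ∈ o, x i = v i}

/-- The directions in the blocks with number less than `k`. -/
def low (k : ℕ) : Finset (Fin n) := univ.filter fun i => block i < k

theorem mem_low {k : ℕ} {i : Fin n} : i ∈ (low k : Finset (Fin n)) ↔ block i < k := by
  simp [low]

/-- Every play by the block rule with directions in blocks `< k`, which arrives at `v` when the
vertices in `D` are dead, has at most `m` further moves. -/
def Lim (k : ℕ) : ℕ → Set (Fin n → Bool) → (Fin n → Bool) → Prop
  | 0, D, v => ∀ o : Finset (Fin n), o ⊆ low k → (∀ i ∈ o, flip v i ∉ D) → o = ∅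
  | m + 1, D, v => ∀ o : Finset (Fin n), o ⊆ low k → (∀ i ∈ o, flip v i ∉ D) →
      ∀ i, BlockRule v o i → Lim k m (D ∪ kill v o) (flip v i)

theorem Lim.mono_set {k m : ℕ} {D D' : Set (Fin n → Bool)} {v : Fin n → Bool}
    (h : Lim k m D v) (hD : D ⊆ D') : Lim k m D' v := by
  induction m generalizing D D' v with
  | zero =>
    intro o ho hl
    exact h o ho fun i hi hd => hl i hi (hD hd)
  | succ m ih =>
    intro o ho hl i hi
    exact ih (h o ho (fun j hj hd => hl j hj (hD hd)) i hi) (Set.union_subset_union_left _ hD)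

theorem Lim.succ {k m : ℕ} {D : Set (Fin n → Bool)} {v : Fin n → Bool}
    (h : Lim k m D v) : Lim k (m + 1) D v := by
  induction m generalizing D v with
  | zero =>
    intro o ho hl i hi
    have := h o ho hl
    subst this
    exact absurd hi.1 (by simp)
  | succ m ih =>
    intro o ho hl i hi
    exact ih (h o ho hl i hi)

theorem Lim.mono {k m m' : ℕ} {D : Set (Fin n → Bool)} {v : Fin n → Bool}
    (h : Lim k m D v) (hm : m ≤ m') : Lim k m' D v := by
  induction hm with
  | refl => exact h
  | step _ ih => exact ih.succ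

theorem oddIn_congr {k : ℕ} {x y : Fin n → Bool} (h : ∀ i, block i = k → x i = y i) :
    OddIn x k ↔ OddIn y k := by
  unfold OddIn
  have : (univ.filter fun i => block i = k ∧ x i = true)
      = (univ.filter fun i : Fin n => block i = k ∧ y i = true) := by
    ext i
    simp only [mem_filter, mem_univ, true_and]
    constructor
    · rintro ⟨h1, h2⟩; exact ⟨h1, by rw [← h i h1]; exact h2⟩
    · rintro ⟨h1, h2⟩; exact ⟨h1, by rw [h i h1]; exact h2⟩
  rw [this]

theorem oddIn_flip {k : ℕ} {x : Fin n → Bool} {i : Fin n} (h : block i = k) :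
    OddIn (flip x i) k ↔ ¬ OddIn x k := by
  unfold OddIn
  by_cases hx : x i = true
  · have h1 : (univ.filter fun j : Fin n => block j = k ∧ x j = true)
        = insert i (univ.filter fun j : Fin n => block j = k ∧ flip x i j = true) := by
      ext j
      simp only [mem_filter, mem_univ, true_and, mem_insert]
      by_cases hj : j = i
      · subst hj; simp [h, hx]
      · rw [flip_ne x hj]; simp [hj]
    have h2 : i ∉ (univ.filter fun j : Fin n => block j = k ∧ flip x i j = true) := by
      simp [flip_same, hx]
    rw [h1, card_insert_of_notMem h2, Nat.odd_add_one, not_not]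
  · have h1 : (univ.filter fun j : Fin n => block j = k ∧ flip x i j = true)
        = insert i (univ.filter fun j : Fin n => block j = k ∧ x j = true) := by
      ext j
      simp only [mem_filter, mem_univ, true_and, mem_insert]
      by_cases hj : j = i
      · subst hj; simp [h, hx, flip_same]
      · rw [flip_ne x hj]; simp [hj]
    have h2 : i ∉ (univ.filter fun j : Fin n => block j = k ∧ x j = true) := by
      simp [hx]
    rw [h1, card_insert_of_notMem h2, Nat.odd_add_one]

/-- The rule depends only on the coordinates in the blocks of the given directions. -/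
theorem blockRule_congr {k : ℕ} {x y : Fin n → Bool} {o : Finset (Fin n)} {i : Fin n}
    (ho : o ⊆ low k) (h : ∀ j ∈ (low k : Finset (Fin n)), x j = y j)
    (hi : BlockRule x o i) : BlockRule y o i := by
  have key : ∀ j ∈ o, (OddIn x (block j) ↔ OddIn y (block j)) := by
    intro j hj
    refine oddIn_congr fun l hl => h l ?_
    rw [mem_low, hl]
    exact mem_low.1 (ho hj)
  obtain ⟨h1, h2⟩ := hi
  refine ⟨h1, ?_⟩
  rcases h2 with ⟨h3, h4⟩ | ⟨h3, h4⟩
  · exact Or.inl ⟨(key i h1).1 h3, fun j hj hj' => h4 j hj ((key j hj).2 hj')⟩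
  · exact Or.inr ⟨fun j hj hj' => h3 j hj ((key j hj).2 hj'), h4⟩

/-- Saturated sets: membership depends only on the coordinates in the blocks `< k`. -/
def Sat (k : ℕ) (D : Set (Fin n → Bool)) : Prop :=
  ∀ x y : Fin n → Bool, (∀ j ∈ (low k : Finset (Fin n)), x j = y j) → x ∈ D → y ∈ D

theorem Sat.union_kill {k : ℕ} {D : Set (Fin n → Bool)} (h : Sat k D) (v : Fin n → Bool)
    {o : Finset (Fin n)} (ho : o ⊆ low k) : Sat k (D ∪ kill v o) := by
  intro x y hxy hx
  rcases hx with hx | hx
  · exact Or.inl (h x y hxy hx)
  · exact Or.inr fun i hi => by rw [← hxy i (ho hi)]; exact hx i hi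

/-- Translation: the play does not depend on the coordinates outside. -/
theorem Lim.transl {k m : ℕ} {D : Set (Fin n → Bool)} {v v' : Fin n → Bool} (hS : Sat k D)
    (hv : ∀ j ∈ (low k : Finset (Fin n)), v j = v' j) (h : Lim k m D v) : Lim k m D v' := by
  have hf : ∀ i j, j ∈ (low k : Finset (Fin n)) → flip v i j = flip v' i j := by
    intro i j hj
    by_cases hji : j = i
    · subst hji; simp [flip_same, hv j hj]
    · rw [flip_ne _ hji, flip_ne _ hji, hv j hj]
  induction m generalizing D v v' with
  | zero =>
    intro o ho hl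
    exact h o ho fun i hi hd => hl i hi (hS _ _ (hf i) hd)
  | succ m ih =>
    intro o ho hl i hi
    have h1 := h o ho (fun j hj hd => hl j hj (hS _ _ (hf j) hd)) i
      (blockRule_congr ho (fun j hj => (hv j hj).symm) hi)
    have hk : kill v o = kill v' o := by
      ext x
      simp only [kill, Set.mem_ofPred_eq]
      constructor
      · intro hx j hj; rw [hx j hj, hv j (ho hj)]
      · intro hx j hj; rw [hx j hj, hv j (ho hj)]
    rw [hk] at h1
    refine ih (hS.union_kill v' ho) (hf i) h1 ?_
    intro a j hj
    by_cases hja : j = a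
    · subst hja; simp [flip_same, hf i j hj]
    · rw [flip_ne _ hja, flip_ne _ hja, hf i j hj]

/-- The dead vertices `E` of the small play are dead in the cell of `v`. -/
def Rel (k : ℕ) (v : Fin n → Bool) (E D : Set (Fin n → Bool)) : Prop :=
  ∀ x : Fin n → Bool, (∀ j, j ∉ (low k : Finset (Fin n)) → x j = v j) → x ∈ E → x ∈ D

theorem flip_flip_comm (x : Fin n → Bool) {i j : Fin n} (h : i ≠ j) :
    flip (flip x i) j = flip (flip x j) i := by
  funext l
  by_cases h1 : l = i
  · subst h1
    rw [flip_ne _ h, flip_same, flip_same, flip_ne _ h]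
  · by_cases h2 : l = j
    · subst h2
      rw [flip_same, flip_ne _ h1, flip_ne _ h1, flip_same]
    · rw [flip_ne _ h2, flip_ne _ h1, flip_ne _ h1, flip_ne _ h2]

/-- Facts about the rule in the blocks `≤ k`: the top block is used first in odd vertices. -/
theorem rule_top {k : ℕ} {v : Fin n → Bool} {o : Finset (Fin n)} {i : Fin n}
    (ho : o ⊆ low (k + 1)) (hodd : OddIn v k) (hex : ∃ j ∈ o, block j = k)
    (hi : BlockRule v o i) : block i = k := by
  obtain ⟨j, hj, hjk⟩ := hex
  have hi' : block i < k + 1 := mem_low.1 (ho hi.1)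
  rcases hi.2 with ⟨_, h4⟩ | ⟨h3, _⟩
  · have := h4 j hj (by rw [hjk]; exact hodd)
    omega
  · exact absurd (by rw [hjk]; exact hodd) (h3 j hj)

/-- Otherwise the lower blocks are used first, by the rule for the lower blocks. -/
theorem rule_low {k : ℕ} {v : Fin n → Bool} {o : Finset (Fin n)} {i : Fin n}
    (ho : o ⊆ low (k + 1)) (hno : ¬ OddIn v k ∨ ∀ j ∈ o, block j ≠ k)
    (hex : (o ∩ low k).Nonempty) (hi : BlockRule v o i) :
    BlockRule v (o ∩ low k) i := by
  obtain ⟨j, hj⟩ := hex
  rw [mem_inter, mem_low] at hj
  have hi' : block i < k + 1 := mem_low.1 (ho hi.1)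
  rcases hi.2 with ⟨h3, h4⟩ | ⟨h3, h4⟩
  · have hik : block i < k := by
      rcases hno with hno | hno
      · have : block i ≠ k := fun h => hno (h ▸ h3)
        omega
      · have := hno i hi.1
        omega
    exact ⟨mem_inter.2 ⟨hi.1, mem_low.2 hik⟩, Or.inl ⟨h3, fun l hl hl' =>
      h4 l (mem_inter.1 hl).1 hl'⟩⟩
  · have hik : block i < k := lt_of_le_of_lt (h4 j hj.1) hj.2
    exact ⟨mem_inter.2 ⟨hi.1, mem_low.2 hik⟩, Or.inr ⟨fun l hl => h3 l (mem_inter.1 hl).1,
      fun l hl => h4 l (mem_inter.1 hl).1⟩⟩

theorem low_subset_succ (k : ℕ) : (low k : Finset (Fin n)) ⊆ low (k + 1) := by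
  intro i hi
  rw [mem_low] at hi ⊢
  omega

theorem flip_low_agree {k : ℕ} {v : Fin n → Bool} {i : Fin n}
    (hi : i ∈ (low k : Finset (Fin n))) (j : Fin n) (hj : j ∉ (low k : Finset (Fin n))) :
    flip v i j = v j :=
  flip_ne v (fun h => hj (h ▸ hi))

/-- The play in an even cell: at most `m + 1` moves until the cell is dead and an odd cell is
reached. -/
theorem run_even {k : ℕ} {N : ℕ} (m : ℕ) {D E : Set (Fin n → Bool)} {v : Fin n → Bool}
    (hpar : ¬ OddIn v k) (hE : Lim k m E v) (hS : Sat k E) (hR : Rel k v E D)
    (hnext : ∀ (D' : Set (Fin n → Bool)) (v' : Fin n → Bool), D ⊆ D' →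
      (∀ x : Fin n → Bool, (∀ j, j ∉ (low k : Finset (Fin n)) → x j = v j) → x ∈ D') →
      OddIn v' k → (∀ j, j ∉ (low (k + 1) : Finset (Fin n)) → v' j = v j) →
      Lim (k + 1) N D' v') :
    Lim (k + 1) (m + 1 + N) D v := by
  induction m generalizing D E v with
  | zero =>
    have : (0 + 1 + N) = N + 1 := by omega
    rw [this]
    intro o ho hl i hi
    have hemp : o ∩ low k = ∅ := by
      refine hE _ inter_subset_right fun j hj hd => ?_
      rw [mem_inter] at hj
      exact hl j hj.1 (hR _ (flip_low_agree hj.2) hd)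
    have hio : i ∈ o := hi.1
    have hik : block i = k := by
      have h1 : block i < k + 1 := mem_low.1 (ho hio)
      have h2 : ¬ block i < k := fun h => by
        have : i ∈ o ∩ low k := mem_inter.2 ⟨hio, mem_low.2 h⟩
        rw [hemp] at this
        exact absurd this (by simp)
      omega
    refine hnext _ _ Set.subset_union_left ?_ ((oddIn_flip hik).2 hpar) ?_
    · intro x hx
      refine Or.inr fun j hj => hx j fun hj' => ?_
      have : j ∈ o ∩ low k := mem_inter.2 ⟨hj, hj'⟩
      rw [hemp] at this
      exact absurd this (by simp)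
    · intro j hj
      exact flip_ne v fun h => hj (by rw [h]; exact ho hio)
  | succ m ih =>
    have : (m + 1 + 1 + N) = (m + 1 + N) + 1 := by omega
    rw [this]
    intro o ho hl i hi
    by_cases hemp : (o ∩ low k).Nonempty
    · have hi2 := rule_low ho (Or.inl hpar) hemp hi
      have hiR : i ∈ (low k : Finset (Fin n)) := (mem_inter.1 hi2.1).2
      have hl2 : ∀ j ∈ o ∩ low k, flip v j ∉ E := fun j hj hd => by
        rw [mem_inter] at hj
        exact hl j hj.1 (hR _ (flip_low_agree hj.2) hd)
      have h1 := hE (o ∩ low k) inter_subset_right hl2 i hi2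
      have hik : block i < k := mem_low.1 hiR
      refine ih (E := E ∪ kill v (o ∩ low k)) ?_ h1 (hS.union_kill v inter_subset_right) ?_ ?_
      · rw [oddIn_congr (y := v) (fun l hl' => flip_ne v (fun h => by
          rw [h] at hl'; omega))]
        exact hpar
      · intro x hx hxE
        rcases hxE with hxE | hxE
        · exact Or.inl (hR x (fun j hj => by rw [hx j hj, flip_low_agree hiR j hj]) hxE)
        · refine Or.inr fun j hj => ?_
          by_cases hj' : j ∈ (low k : Finset (Fin n))
          · exact hxE j (mem_inter.2 ⟨hj, hj'⟩)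
          · rw [hx j hj', flip_low_agree hiR j hj']
      · intro D' v' hD' hcell hodd hout
        refine hnext D' v' (Set.subset_union_left.trans hD') ?_ hodd ?_
        · intro x hx
          exact hcell x fun j hj => by rw [hx j hj, flip_low_agree hiR j hj]
        · intro j hj
          rw [hout j hj]
          exact flip_ne v fun h => hj (by rw [h]; exact ho hi.1)
    · rw [not_nonempty_iff_eq_empty] at hemp
      have hio : i ∈ o := hi.1
      have hik : block i = k := by
        have h1 : block i < k + 1 := mem_low.1 (ho hio)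
        have h2 : ¬ block i < k := fun h => by
          have : i ∈ o ∩ low k := mem_inter.2 ⟨hio, mem_low.2 h⟩
          rw [hemp] at this
          exact absurd this (by simp)
        omega
      refine (hnext _ _ Set.subset_union_left ?_ ((oddIn_flip hik).2 hpar) ?_).mono (by omega)
      · intro x hx
        refine Or.inr fun j hj => hx j fun hj' => ?_
        have : j ∈ o ∩ low k := mem_inter.2 ⟨hj, hj'⟩
        rw [hemp] at this
        exact absurd this (by simp)
      · intro j hj
        exact flip_ne v fun h => hj (by rw [h]; exact ho hio)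

/-- The play in an odd cell, linked with the neighbouring even cells. -/
theorem run_odd {k : ℕ} {N : ℕ} (m : ℕ) {D E : Set (Fin n → Bool)} {v : Fin n → Bool}
    (hpar : OddIn v k) (hE : Lim k m E v) (hS : Sat k E) (hR : Rel k v E D)
    (hRn : ∀ l : Fin n, block l = k → Rel k (flip v l) E D)
    (hnext : ∀ (D' : Set (Fin n → Bool)) (u : Fin n → Bool), D ⊆ D' → u ∉ D' →
      ¬ OddIn u k → (∀ j, j ∉ (low (k + 1) : Finset (Fin n)) → u j = v j) →
      ∀ (D'' : Set (Fin n → Bool)) (v' : Fin n → Bool), D' ⊆ D'' →
      (∀ x : Fin n → Bool, (∀ j, j ∉ (low k : Finset (Fin n)) → x j = u j) → x ∈ D'') →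
      OddIn v' k → (∀ j, j ∉ (low (k + 1) : Finset (Fin n)) → v' j = v j) →
      Lim (k + 1) N D'' v') :
    Lim (k + 1) (m + 2 + N) D v := by
  have hjump : ∀ (m : ℕ) (D E : Set (Fin n → Bool)) (v : Fin n → Bool), OddIn v k →
      Lim k m E v → Sat k E → (∀ l : Fin n, block l = k → Rel k (flip v l) E D) →
      (∀ (D' : Set (Fin n → Bool)) (u : Fin n → Bool), D ⊆ D' → u ∉ D' →
      ¬ OddIn u k → (∀ j, j ∉ (low (k + 1) : Finset (Fin n)) → u j = v j) →
      ∀ (D'' : Set (Fin n → Bool)) (v' : Fin n → Bool), D' ⊆ D'' →
      (∀ x : Fin n → Bool, (∀ j, j ∉ (low k : Finset (Fin n)) → x j = u j) → x ∈ D'') →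
      OddIn v' k → (∀ j, j ∉ (low (k + 1) : Finset (Fin n)) → v' j = v j) →
      Lim (k + 1) N D'' v') →
      ∀ (o : Finset (Fin n)) (i : Fin n), o ⊆ low (k + 1) → i ∈ o → block i = k →
      flip v i ∉ D →
      Lim (k + 1) (m + 1 + N) (D ∪ kill v o) (flip v i) := by
    intro m D E v hpar hE hS hRn hnext o i ho hio hik hnot
    have hag : ∀ j ∈ (low k : Finset (Fin n)), v j = flip v i j := by
      intro j hj
      rw [flip_ne]
      intro h
      rw [h, mem_low] at hj
      omega
    have hnk : flip v i ∉ kill v o := by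
      intro h
      have := h i hio
      rw [flip_same] at this
      simp at this
    refine run_even m (fun h => ((oddIn_flip hik).1 h) hpar) (hE.transl hS hag) hS
      (fun x hx hxE => Or.inl (hRn i hik x hx hxE)) ?_
    intro D' v' hD' hcell hodd hout
    have hout1 : ∀ j, j ∉ (low (k + 1) : Finset (Fin n)) → flip v i j = v j := fun j hj =>
      flip_ne v fun h => hj (by rw [h]; exact ho hio)
    refine hnext (D ∪ kill v o) (flip v i) Set.subset_union_left ?_
      (fun h => ((oddIn_flip hik).1 h) hpar) hout1 D' v' hD' hcell hodd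
      (fun j hj => by rw [hout j hj, hout1 j hj])
    rintro (h | h)
    · exact hnot h
    · exact hnk h
  induction m generalizing D E v with
  | zero =>
    have h2 : (0 + 2 + N) = (0 + 1 + N) + 1 := by omega
    rw [h2]
    intro o ho hl i hi
    have hemp : o ∩ low k = ∅ := by
      refine hE _ inter_subset_right fun j hj hd => ?_
      rw [mem_inter] at hj
      exact hl j hj.1 (hR _ (flip_low_agree hj.2) hd)
    have hio : i ∈ o := hi.1
    have hik : block i = k := by
      have h1 : block i < k + 1 := mem_low.1 (ho hio)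
      have h2 : ¬ block i < k := fun h => by
        have : i ∈ o ∩ low k := mem_inter.2 ⟨hio, mem_low.2 h⟩
        rw [hemp] at this
        exact absurd this (by simp)
      omega
    exact hjump 0 D E v hpar hE hS hRn hnext o i ho hio hik (hl i hio)
  | succ m ih =>
    have h2 : (m + 1 + 2 + N) = (m + 1 + 1 + N) + 1 := by omega
    rw [h2]
    intro o ho hl i hi
    by_cases hex : ∃ j ∈ o, block j = k
    · have hik := rule_top ho hpar hex hi
      exact hjump (m + 1) D E v hpar hE hS hRn hnext o i ho hi.1 hik (hl i hi.1)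
    · push Not at hex
      have hlow : o ⊆ low k := by
        intro j hj
        have h1 : block j < k + 1 := mem_low.1 (ho hj)
        have h3 := hex j hj
        exact mem_low.2 (by omega)
      have hoo : o ∩ low k = o := inter_eq_left.2 hlow
      have hne : (o ∩ low k).Nonempty := ⟨i, by rw [hoo]; exact hi.1⟩
      have hiR : i ∈ (low k : Finset (Fin n)) := hlow hi.1
      have hik : block i < k := mem_low.1 hiR
      have h1 := hE o hlow (fun j hj hd => hl j hj (hR _ (flip_low_agree (hlow hj)) hd)) i hi
      have h3 : (m + 1 + 1 + N) = m + 2 + N := by omega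
      rw [h3]
      refine ih (E := E ∪ kill v o) ?_ h1 (hS.union_kill v hlow) ?_ ?_ ?_
      · rw [oddIn_congr (y := v) (fun l hl' => flip_ne v (fun h => by
          rw [h] at hl'; omega))]
        exact hpar
      · intro x hx hxE
        rcases hxE with hxE | hxE
        · exact Or.inl (hR x (fun j hj => by rw [hx j hj, flip_low_agree hiR j hj]) hxE)
        · exact Or.inr hxE
      · intro l hlk x hx hxE
        rcases hxE with hxE | hxE
        · refine Or.inl (hRn l hlk x (fun j hj => ?_) hxE)
          have hil : i ≠ l := fun h => by rw [h] at hik; omega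
          rw [hx j hj, flip_flip_comm v hil, flip_low_agree hiR j hj]
        · exact Or.inr hxE
      · intro D' u hD' hu hpu hout D'' v' hD'' hcell hodd hout'
        have hag : ∀ j, j ∉ (low (k + 1) : Finset (Fin n)) → flip v i j = v j := fun j hj =>
          flip_ne v fun h => hj (by rw [h]; exact ho hi.1)
        exact hnext D' u (Set.subset_union_left.trans hD') hu hpu
          (fun j hj => by rw [hout j hj, hag j hj]) D'' v' hD'' hcell hodd
          (fun j hj => by rw [hout' j hj, hag j hj])

/-- The last play in an odd cell: all neighbouring even cells are dead. -/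
theorem run_last {k : ℕ} (m : ℕ) {D E : Set (Fin n → Bool)} {v : Fin n → Bool}
    (hpar : OddIn v k) (hE : Lim k m E v) (hR : Rel k v E D)
    (hdead : ∀ x : Fin n → Bool, ¬ OddIn x k →
      (∀ j, j ∉ (low (k + 1) : Finset (Fin n)) → x j = v j) → x ∈ D) :
    Lim (k + 1) m D v := by
  have hno : ∀ (D : Set (Fin n → Bool)) (v : Fin n → Bool), OddIn v k →
      (∀ x : Fin n → Bool, ¬ OddIn x k →
      (∀ j, j ∉ (low (k + 1) : Finset (Fin n)) → x j = v j) → x ∈ D) →
      ∀ o : Finset (Fin n), o ⊆ low (k + 1) → (∀ i ∈ o, flip v i ∉ D) → o ⊆ low k := by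
    intro D v hpar hdead o ho hl j hj
    by_contra hj'
    have h1 : block j < k + 1 := mem_low.1 (ho hj)
    have h2 : ¬ block j < k := fun h => hj' (mem_low.2 h)
    have hjk : block j = k := by omega
    refine hl j hj (hdead _ (fun h => ((oddIn_flip hjk).1 h) hpar) fun l hl' => ?_)
    exact flip_ne v fun h => hl' (by rw [h]; exact ho hj)
  induction m generalizing D E v with
  | zero =>
    intro o ho hl
    have hlow := hno D v hpar hdead o ho hl
    exact hE o hlow fun j hj hd => hl j hj (hR _ (flip_low_agree (hlow hj)) hd)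
  | succ m ih =>
    intro o ho hl i hi
    have hlow := hno D v hpar hdead o ho hl
    have hiR : i ∈ (low k : Finset (Fin n)) := hlow hi.1
    have hik : block i < k := mem_low.1 hiR
    have h1 := hE o hlow (fun j hj hd => hl j hj (hR _ (flip_low_agree (hlow hj)) hd)) i hi
    refine ih (E := E ∪ kill v o) ?_ h1 ?_ ?_
    · rw [oddIn_congr (y := v) (fun l hl' => flip_ne v (fun h => by
        rw [h] at hl'; omega))]
      exact hpar
    · intro x hx hxE
      rcases hxE with hxE | hxE
      · exact Or.inl (hR x (fun j hj => by rw [hx j hj, flip_low_agree hiR j hj]) hxE)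
      · exact Or.inr hxE
    · intro x hx hout
      refine Or.inl (hdead x hx fun j hj => ?_)
      rw [hout j hj]
      exact flip_ne v fun h => hj (by rw [h]; exact ho hi.1)

end Pool.Agent.Run7.h515.PV
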